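import Pool.Agent.T6.H3.FR.D3
import Pool.Agent.T6.H3.FF.Maj

set_option autoImplicit false

/-! Few primitive characters have a large sum with the minorant. -/

namespace Pool.Agent.T6.H3.FR

open Finset
open Pool.Agent.Y883.GJ
open Pool.Agent.R460.GS (ro er a1 a2 b1 b2 Sm pmx mu Tw JJ cc JJ_le cc_lt norm_ev1 sm_le a1_le a2_le b1_le b2_le one_le_bd)
open Pool.Agent.R460.GR (Bd)
open Pool.Agent.R460.GH (af mu1 mu1_le ell ti_gen GG0 tot_maj a1_supp')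
open Pool.Agent.T6.H3.FF
open Pool.Agent.H807R2.Dav (ee)
open Pool.Agent.Y614.GJ.Core (ev_log)

open Classical in
/-- the sums of type I on the major arcs -/
lemma tiPart (A C : ℕ) {ρ : ℝ} (hρ : 0 < ρ) : ∃ N₀ : ℕ, ∀ N : ℕ, N₀ ≤ N → ∀ (q : ℕ) [NeZero q],
    (q : ℝ) ≤ (N : ℝ) ^ (4 / 5 - ρ) → ∀ η : ℝ, |η| ≤ Real.log N ^ C / N → ∀ y : ℕ, y ≤ N →
    ∀ S : Finset (DirichletCharacter ℂ q), 1 ∉ S →
    ‖∑ m ∈ Icc 1 y, (op (ZZ N) (Nat.sqrt N) (af (mu1 (WW N) (WW N))) m) • ∑ b ∈ Icc 1 (y / m), ev S η (b * m)‖ ^ 2 ≤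
      (N : ℝ) ^ 2 / Real.log N ^ (A + 4) := by
  obtain ⟨s, hs⟩ : ∃ s : ℝ, s = min ρ (1 / 3) := ⟨_, rfl⟩
  have hs0 : 0 < s := by rw [hs]; exact lt_min hρ (by norm_num)
  have hs1 : s ≤ ρ := by rw [hs]; exact min_le_left _ _
  obtain ⟨N₃, hN₃⟩ := Filter.eventually_atTop.1 (ev_log (C + A + 9) (s := s) hs0 80000000000)
  refine ⟨max N₃ 64, fun N hN q _ hq' η hη y hy S hS1 => ?_⟩
  have hNN₃ : N₃ ≤ N := le_trans (le_max_left _ _) hN
  have hN64 : 64 ≤ N := le_trans (le_max_right _ _) hN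
  have hN1 : 1 ≤ N := by omega
  obtain ⟨hL16, hLp⟩ := hN₃ N hNN₃
  have hN0 : (0 : ℝ) < N := by exact_mod_cast hN1
  have hNr1 : (1 : ℝ) ≤ N := by exact_mod_cast hN1
  have hqN : (q : ℝ) ≤ N := by
    calc (q : ℝ) ≤ (N : ℝ) ^ (4 / 5 - ρ) := hq'
      _ ≤ (N : ℝ) ^ (1 : ℝ) := Real.rpow_le_rpow_of_exponent_le hNr1 (by linarith)
      _ = N := Real.rpow_one _
  have hqNn : q ≤ N := by exact_mod_cast hqN
  have hP1 : 1 ≤ Nat.sqrt N := (one_le_WW hN1).trans ((WW_le hN1).trans (ZZ_le_sqrt hN1))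
  have hM1 : 1 ≤ Nat.sqrt N * WW N := Nat.mul_le_mul hP1 (one_le_WW hN1)
  have hMr := PW_real (N := N) hN1
  have hMN : Nat.sqrt N * WW N ≤ N := by
    have : ((Nat.sqrt N * WW N : ℕ) : ℝ) ≤ N := hMr.trans (by
      calc (N : ℝ) ^ (3 / 5 : ℝ) ≤ (N : ℝ) ^ (1 : ℝ) :=
            Real.rpow_le_rpow_of_exponent_le hNr1 (by norm_num)
        _ = N := Real.rpow_one _)
    exact_mod_cast this
  have t1 := ti_gen5 hy (a := fun m => op (ZZ N) (Nat.sqrt N) (af (mu1 (WW N) (WW N))) m)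
    (fun m hm => mu1_supp hP1 hm) (fun m hm => opb hN1 (mu1_le _ _) hm) η S ((range q).erase 0)
    (Or.inr ⟨hS1, rfl⟩)
  refine t1.trans ?_
  obtain ⟨hl1, hl2⟩ := ell (by linarith) (by omega) (NeZero.pos q) hqNn hM1 hMN
  have t2 := tot_maj (q := q) (N := N) (M := Nat.sqrt N * WW N) (NeZero.pos q) hN1 hM1 (η := η)
    (T := Real.log N ^ C) (one_le_pow₀ (by linarith)) hη (ℓ := 4 * Real.log N) hl1 hl2
  have t3 := ti_main hN1 hs1 hq' hMr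
  obtain ⟨L, hLd⟩ : ∃ L, L = Real.log (N : ℝ) := ⟨_, rfl⟩
  rw [← hLd] at t2 hL16 hLp ⊢
  have hL0 : 0 < L := by linarith
  rw [le_div_iff₀ (by positivity)]
  calc (25 * ∑ j ∈ (range q).erase 0, GG0 q N (Nat.sqrt N * WW N) (η + j / q) ^ 2) * L ^ (A + 4)
      ≤ (25 * (2000000 * (L ^ C * (4 * L) ^ 4 * (2 * (N : ℝ) ^ (2 - s))))) * L ^ (A + 4) := by
        gcongr
        refine t2.trans ?_
        gcongr
    _ = (25600000000 * L ^ (C + A + 8)) * (N : ℝ) ^ (2 - s) := by ring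
    _ ≤ (L * L ^ (C + A + 8)) * (N : ℝ) ^ (2 - s) := by
        gcongr
        linarith
    _ = L ^ (C + A + 9) * (N : ℝ) ^ (2 - s) := by ring
    _ ≤ (N : ℝ) ^ s * (N : ℝ) ^ (2 - s) := by gcongr
    _ = (N : ℝ) ^ 2 := by
        rw [← Real.rpow_add hN0, ← Real.rpow_natCast]
        congr 1
        push_cast
        ring

open Classical in
theorem mG4 (h1 : L2Stm) (U : ℕ) (ρ : ℝ) (hρ : 0 < ρ) : ∃ C₄ N₀ : ℕ, ∀ N : ℕ, N₀ ≤ N →
    ∀ Ψ : Finset (Σ f : ℕ, DirichletCharacter ℂ f),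
    (∀ ψ ∈ Ψ, 1 < ψ.1 ∧ (ψ.1 : ℝ) ≤ (N : ℝ) ^ (4 / 5 - ρ) ∧ ψ.2.IsPrimitive ∧
      ∃ y : ℕ, y ≤ N ∧ N / Real.log N ^ U < ‖∑ n ∈ Icc 1 y, GM N n * ψ.2 (n : ZMod ψ.1)‖) →
    (Ψ.card : ℝ) ≤ Real.log N ^ C₄ := by
  obtain ⟨A, hA⟩ : ∃ A, A = 2 * U := ⟨_, rfl⟩
  obtain ⟨K₂, K, N₁, hB'⟩ := bilMaj4 h1 (A + 2 * (A + 14) + 8) 0 ρ hρ
  obtain ⟨N₂, hG⟩ := gm_vec h1 A
  obtain ⟨N₃, hT⟩ := tiPart A 0 hρ
  obtain ⟨C₃, N₄, hcnt⟩ := count3 K₂ K
  obtain ⟨N₅, hN₅⟩ := Filter.eventually_atTop.1 (ev_log 1 (s := 1) (by norm_num) 16)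
  refine ⟨C₃ + A + 18, max (max N₁ N₂) (max (max N₃ N₄) (max N₅ 1)), fun N hN Ψ hΨ => ?_⟩
  have hNN₁ : N₁ ≤ N := le_trans (le_trans (le_max_left _ _) (le_max_left _ _)) hN
  have hNN₂ : N₂ ≤ N := le_trans (le_trans (le_max_right _ _) (le_max_left _ _)) hN
  have hNN₃ : N₃ ≤ N := le_trans (le_trans (le_trans (le_max_left _ _) (le_max_left _ _)) (le_max_right _ _)) hN
  have hNN₄ : N₄ ≤ N := le_trans (le_trans (le_trans (le_max_right _ _) (le_max_left _ _)) (le_max_right _ _)) hN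
  have hNN₅ : N₅ ≤ N := le_trans (le_trans (le_trans (le_max_left _ _) (le_max_right _ _)) (le_max_right _ _)) hN
  have hN1 : 1 ≤ N := le_trans (le_trans (le_trans (le_max_right _ _) (le_max_right _ _)) (le_max_right _ _)) hN
  obtain ⟨hL16, -⟩ := hN₅ N hNN₅
  have hN0 : (0 : ℝ) < N := by exact_mod_cast hN1
  have hNr1 : (1 : ℝ) ≤ N := by exact_mod_cast hN1
  have hJ := JJ_le (N := N) (U := A + 14) (by linarith)
  have key : ∀ ψ ∈ Ψ, ∃ j ∈ range (JJ N (A + 14)),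
      Bd N K₂ K (a1 (WW N) (ZZ N) (cc N (A + 14)) j) ψ.1 ψ.2 ∨
      Bd N K₂ K (a2 (WW N) (WW N) (cc N (A + 14)) j) ψ.1 ψ.2 := by
    rintro ⟨q, χ⟩ hψ
    obtain ⟨e1, e2, e3, y, hy, e4⟩ := hΨ ⟨q, χ⟩ hψ
    simp only at e1 e2 e3 e4 ⊢
    by_contra hcon
    push Not at hcon
    have : NeZero q := ⟨by omega⟩
    have hqN : (q : ℝ) ≤ N := by
      calc (q : ℝ) ≤ (N : ℝ) ^ (4 / 5 - ρ) := e2
        _ ≤ (N : ℝ) ^ (1 : ℝ) := Real.rpow_le_rpow_of_exponent_le hNr1 (by linarith)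
        _ = N := Real.rpow_one _
    have hS1 : (1 : DirichletCharacter ℂ q) ∉ ({χ} : Finset (DirichletCharacter ℂ q)) := by
      rw [mem_singleton]
      intro h
      rw [← h] at e3
      have h2 : (1 : DirichletCharacter ℂ q).conductor = q := e3
      rw [DirichletCharacter.conductor_one] at h2
      omega
    have hη : |(0 : ℝ)| ≤ Real.log N ^ 0 / N := by
      rw [abs_zero]
      positivity
    have hmain : ∑ χ' ∈ ({χ} : Finset (DirichletCharacter ℂ q)), ‖cs q y (GM N) 0 χ'‖ ^ 2 ≤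
        (N : ℝ) ^ 2 / Real.log N ^ A := by
      apply hG N hNN₂ q hqN {χ} 0 y hy
      · exact hT N hNN₃ q e2 0 hη y hy {χ} hS1
      · intro j hj
        refine hB' N hNN₁ q e2 (a2 (WW N) (WW N) (cc N (A + 14)) j)
          (fun m hm => one_le_bd (by linarith) hm (a2_le _ _ _ _ _)) (fun m hm => supp_W (a2_supp' hN1 hm))
          (fun l => op (ZZ N) (Nat.sqrt N) (af (b2 (WW N) (cc N (A + 14)) j)) l)
          (fun m hm => five_le_bd (by linarith) hm (opb hN1 (b2_le _ _ _) hm))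
          0 hη y hy {χ} ?_
        intro χ' hχ'
        rw [mem_singleton] at hχ'
        rw [hχ']
        exact (hcon j hj).2
      · intro j hj
        refine hB' N hNN₁ q e2 (a1 (WW N) (ZZ N) (cc N (A + 14)) j)
          (fun m hm => one_le_bd (by linarith) hm (a1_le _ _ _ _ _)) (fun m hm => supp_W (a1_supp' hm))
          (fun l => op (ZZ N) (Nat.sqrt N) (af (b1 (cc N (A + 14)) j)) l)
          (fun m hm => five_le_bd (by linarith) hm (opb hN1 (b1_le _ _) hm))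
          0 hη y hy {χ} ?_
        intro χ' hχ'
        rw [mem_singleton] at hχ'
        rw [hχ']
        exact (hcon j hj).1
    rw [sum_singleton] at hmain
    have hcs : cs q y (GM N) 0 χ = ∑ n ∈ Icc 1 y, GM N n * χ (n : ZMod q) := by
      unfold cs
      refine sum_congr rfl fun n _ => ?_
      rw [mul_zero, Pool.Agent.H807R2.Dav.ee_zero, mul_one]
    rw [hcs] at hmain
    have hL0 : 0 < Real.log N := by linarith
    have h5 : (N : ℝ) ^ 2 / Real.log N ^ A = (N / Real.log N ^ U) ^ 2 := by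
      rw [hA, div_pow, ← pow_mul, mul_comm U 2]
    rw [h5] at hmain
    have h6 : 0 ≤ (N : ℝ) / Real.log N ^ U := by positivity
    have h7 := pow_lt_pow_left₀ e4 h6 two_ne_zero
    linarith
  -- the number
  have hsub : Ψ ⊆ (range (JJ N (A + 14))).biUnion (fun j =>
      Ψ.filter (fun ψ => Bd N K₂ K (a1 (WW N) (ZZ N) (cc N (A + 14)) j) ψ.1 ψ.2) ∪
      Ψ.filter (fun ψ => Bd N K₂ K (a2 (WW N) (WW N) (cc N (A + 14)) j) ψ.1 ψ.2)) := by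
    intro ψ hψ
    obtain ⟨j, hj, h⟩ := key ψ hψ
    rw [mem_biUnion]
    refine ⟨j, hj, ?_⟩
    rw [mem_union, mem_filter, mem_filter]
    rcases h with h | h
    · exact Or.inl ⟨hψ, h⟩
    · exact Or.inr ⟨hψ, h⟩
  have hQ : ∀ ψ ∈ Ψ, 1 ≤ ψ.1 ∧ (ψ.1 : ℝ) ≤ (N : ℝ) ^ (4 / 5 : ℝ) ∧ ψ.2.IsPrimitive := by
    intro ψ hψ
    obtain ⟨e1, e2, e3, -⟩ := hΨ ψ hψ
    exact ⟨by omega, e2.trans (Real.rpow_le_rpow_of_exponent_le hNr1 (by linarith)), e3⟩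
  have c1 : ∀ j, ((Ψ.filter (fun ψ => Bd N K₂ K (a1 (WW N) (ZZ N) (cc N (A + 14)) j) ψ.1 ψ.2)).card : ℝ) ≤
      Real.log N ^ C₃ := by
    intro j
    apply hcnt N hNN₄ (a1 (WW N) (ZZ N) (cc N (A + 14)) j)
      (fun m hm => one_le_bd (by linarith) hm (a1_le _ _ _ _ _)) (fun m hm => supp_W (a1_supp' hm))
    intro ψ hψ
    rw [mem_filter] at hψ
    obtain ⟨f1, f2, f3⟩ := hQ ψ hψ.1
    exact ⟨f1, f2, f3, hψ.2⟩
  have c2 : ∀ j, ((Ψ.filter (fun ψ => Bd N K₂ K (a2 (WW N) (WW N) (cc N (A + 14)) j) ψ.1 ψ.2)).card : ℝ) ≤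
      Real.log N ^ C₃ := by
    intro j
    apply hcnt N hNN₄ (a2 (WW N) (WW N) (cc N (A + 14)) j)
      (fun m hm => one_le_bd (by linarith) hm (a2_le _ _ _ _ _)) (fun m hm => supp_W (a2_supp' hN1 hm))
    intro ψ hψ
    rw [mem_filter] at hψ
    obtain ⟨f1, f2, f3⟩ := hQ ψ hψ.1
    exact ⟨f1, f2, f3, hψ.2⟩
  have h4 := (card_le_card hsub).trans (card_biUnion_le.trans (sum_le_sum fun j _ => card_union_le _ _))
  have h5 : (Ψ.card : ℝ) ≤ ∑ j ∈ range (JJ N (A + 14)),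
      (((Ψ.filter (fun ψ => Bd N K₂ K (a1 (WW N) (ZZ N) (cc N (A + 14)) j) ψ.1 ψ.2)).card : ℝ) +
       ((Ψ.filter (fun ψ => Bd N K₂ K (a2 (WW N) (WW N) (cc N (A + 14)) j) ψ.1 ψ.2)).card : ℝ)) := by
    exact_mod_cast h4
  refine h5.trans ((sum_le_sum fun j _ => add_le_add (c1 j) (c2 j)).trans ?_)
  rw [sum_const, card_range, nsmul_eq_mul]
  obtain ⟨L, hLd⟩ : ∃ L, L = Real.log (N : ℝ) := ⟨_, rfl⟩
  rw [← hLd] at hJ hL16 ⊢
  have hL0 : 0 < L := by linarith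
  calc (JJ N (A + 14) : ℝ) * (L ^ C₃ + L ^ C₃) ≤ L ^ (A + 14 + 2) * (L ^ C₃ + L ^ C₃) := by gcongr
    _ = 2 * (L ^ (A + 14 + 2) * L ^ C₃) := by ring
    _ ≤ L ^ 2 * (L ^ (A + 14 + 2) * L ^ C₃) := by
        gcongr
        nlinarith
    _ = L ^ (C₃ + A + 18) := by ring

end Pool.Agent.T6.H3.FR
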